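import Mathlib
import Pool.Agent.R722.QCSplit

/-!
# Rigid modules over quantum complete intersections are projective
-/

set_option autoImplicit false

universe u

open CategoryTheory CategoryTheory.Abelian

namespace Pool.Agent.Results.MP_315024_al.RigidProjective

open Pool.Agent.R722.QC

/-- The defining relations `x_i ^ a_i = 0` and `x_i x_j + q_{i,j} x_j x_i = 0` for `i > j`, in the
free algebra on `x_1, ..., x_n`. -/
inductive QRel (K : Type u) [Field K] (n : ℕ) (a : Fin n → ℕ) (q : Fin n → Fin n → K) :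
    FreeAlgebra K (Fin n) → FreeAlgebra K (Fin n) → Prop
  | pow (i : Fin n) : QRel K n a q (FreeAlgebra.ι K i ^ a i) 0
  | comm (i j : Fin n) (h : j < i) : QRel K n a q
      (FreeAlgebra.ι K i * FreeAlgebra.ι K j + q i j • (FreeAlgebra.ι K j * FreeAlgebra.ι K i)) 0

/-- The quantum complete intersection. -/
abbrev QCI (K : Type u) [Field K] (n : ℕ) (a : Fin n → ℕ) (q : Fin n → Fin n → K) : Type u :=
  RingQuot (QRel K n a q)

section
variable {K : Type u} [Field K] {n : ℕ} (a : Fin n → ℕ) (q : Fin n → Fin n → K)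

/-- The generators. -/
noncomputable def xx (i : Fin n) : QCI K n a q :=
  RingQuot.mkAlgHom K (QRel K n a q) (FreeAlgebra.ι K i)

theorem xx_pow (i : Fin n) : xx a q i ^ a i = 0 := by
  have h := RingQuot.mkAlgHom_rel K (QRel.pow (K := K) (n := n) (a := a) (q := q) i)
  rw [map_pow, map_zero] at h
  exact h

theorem xx_comm (i j : Fin n) (hij : j < i) :
    xx a q i * xx a q j = (-q i j) • (xx a q j * xx a q i) := by
  have h := RingQuot.mkAlgHom_rel K (QRel.comm (K := K) (n := n) (a := a) (q := q) i j hij)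
  rw [map_add, map_mul, map_smul, map_mul, map_zero] at h
  exact (eq_neg_of_add_eq_zero_left h).trans (neg_smul (q i j) (xx a q j * xx a q i)).symm

/-- The commutation scalars for the opposite algebra. -/
noncomputable def rr (i j : Fin n) : K := if i < j then -q j i else (-q i j)⁻¹

theorem rr_mul (hq : ∀ i j, j < i → q i j ≠ 0) (i j : Fin n) (hij : i ≠ j) :
    rr q i j * rr q j i = 1 := by
  unfold rr
  rcases lt_or_gt_of_ne hij with h | h
  · rw [if_pos h, if_neg h.not_gt]
    exact mul_inv_cancel₀ (neg_ne_zero.2 (hq j i h))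
  · rw [if_neg h.not_gt, if_pos h]
    exact inv_mul_cancel₀ (neg_ne_zero.2 (hq i j h))

/-- The generators of the opposite algebra. -/
noncomputable def yy (i : Fin n) : (QCI K n a q)ᵐᵒᵖ := MulOpposite.op (xx a q i)

theorem pres (hq : ∀ i j, j < i → q i j ≠ 0) : Pres a (rr q) (yy a q) where
  rel := by
    refine ⟨fun i => ?_, fun i j hij => ?_⟩
    · rw [yy, ← MulOpposite.op_pow, xx_pow, MulOpposite.op_zero]
    · unfold rr yy
      rw [← MulOpposite.op_mul, ← MulOpposite.op_mul]
      rcases lt_or_gt_of_ne hij with h | h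
      · rw [if_pos h, xx_comm a q j i h, MulOpposite.op_smul]
      · rw [if_neg h.not_gt, xx_comm a q i j h, MulOpposite.op_smul, smul_smul,
          inv_mul_cancel₀ (neg_ne_zero.2 (hq i j h)), one_smul]
  gen := by
    rw [eq_top_iff]
    intro b _
    obtain ⟨f, hf⟩ := RingQuot.mkAlgHom_surjective K (QRel K n a q) b.unop
    have key : ∀ f : FreeAlgebra K (Fin n), MulOpposite.op (RingQuot.mkAlgHom K (QRel K n a q) f)
        ∈ Algebra.adjoin K (Set.range (yy a q)) := by
      intro f
      induction f using FreeAlgebra.induction with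
      | grade0 c =>
        rw [AlgHom.commutes]
        exact Subalgebra.algebraMap_mem _ c
      | grade1 i => exact Algebra.subset_adjoin ⟨i, rfl⟩
      | mul f g hf hg =>
        rw [map_mul, MulOpposite.op_mul]
        exact Subalgebra.mul_mem _ hg hf
      | add f g hf hg =>
        rw [map_add, MulOpposite.op_add]
        exact Subalgebra.add_mem _ hf hg
    have h := key f
    rw [hf, MulOpposite.op_unop] at h
    exact h
  lift := by
    intro W _ _ Tm hT
    let f : FreeAlgebra K (Fin n) →ₐ[K] (Module.End K W)ᵐᵒᵖ :=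
      FreeAlgebra.lift K (fun i => MulOpposite.op (Tm i))
    have hf : ∀ i, f (FreeAlgebra.ι K i) = MulOpposite.op (Tm i) := fun i =>
      FreeAlgebra.lift_ι_apply _ _
    have hrel : ∀ ⦃x y⦄, QRel K n a q x y → f x = f y := by
      intro x y hxy
      cases hxy with
      | pow i => rw [map_pow, hf, ← MulOpposite.op_pow, hT.1, map_zero, MulOpposite.op_zero]
      | comm i j hij =>
        rw [map_add, map_mul, map_smul, map_mul, hf, hf, map_zero, ← MulOpposite.op_mul,
          ← MulOpposite.op_mul, hT.2 j i hij.ne, rr, if_pos hij, MulOpposite.op_smul, neg_smul,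
          neg_add_cancel]
    refine ⟨AlgHom.opComm (RingQuot.liftAlgHom K ⟨f, hrel⟩), fun i => ?_⟩
    show MulOpposite.unop (RingQuot.liftAlgHom K ⟨f, hrel⟩
      (RingQuot.mkAlgHom K (QRel K n a q) (FreeAlgebra.ι K i))) = Tm i
    rw [RingQuot.liftAlgHom_mkAlgHom_apply, hf]
    rfl

end

/-- Over every quantum complete intersection, a finitely generated right module without
self-extensions is projective. -/
theorem result {K : Type u} [Field K] {n : ℕ} (a : Fin n → ℕ) (ha : ∀ i, 2 ≤ a i)
    (q : Fin n → Fin n → K) (hq : ∀ i j, j < i → q i j ≠ 0)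
    (M : Type u) [AddCommGroup M] [Module (QCI K n a q)ᵐᵒᵖ M]
    [Module.Finite (QCI K n a q)ᵐᵒᵖ M]
    (hM : Subsingleton (Ext.{u} (ModuleCat.of (QCI K n a q)ᵐᵒᵖ M)
      (ModuleCat.of (QCI K n a q)ᵐᵒᵖ M) 1)) :
    Module.Projective (QCI K n a q)ᵐᵒᵖ M :=
  projective_of_ext (pres a q hq) (rr_mul q hq) (fun i => by have := ha i; omega) M hM

end Pool.Agent.Results.MP_315024_al.RigidProjective
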